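import Pool.Agent.Helper70.CPW.Rcp

/-! EVENTS OF EXTENSIONS OF A ZOOM ARE ZOOMS OF EVENTS OF EXTENSIONS (zooms over literal labels). -/

set_option autoImplicit false

namespace Pool.Agent.Helper56.IMZ

open Finset Filter Topology Matrix Pool.Agent.Helper69.RK Pool.Agent.Helper31.EC Pool.Agent.Helper31.EC.Sp
open Pool.Agent.Helper40.EL Pool.Agent.Helper84.MT Pool.Agent.Helper89.LX
open Pool.Agent.Helper81.CPY Pool.Agent.Helper7.GZ Pool.Agent.Helper7.RD Pool.Agent.Helper70.CPW

noncomputable section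

variable {S T : Sp} {M M' : ℕ} {E E' : ℕ → ℕ} {ι : Type}

section

variable {W : ∀ k, Setoid (S.F k).Ω} {u : ℝ} {hu : 0 < u}

/-- an extension of the zoom as an extension of the space -/
def unp (p : Pj T ((Lab.ofZ W).ovr u hu)) : Sp where
  F := fun k => { T.F k with
    Z := Setoid.comap (p.π k) (S.F k).Z
    n := (T.F k).n / u
    pos := div_pos (T.F k).pos hu }
  lim := T.lim.atTop_div_const hu

def ppn (p : Pj T ((Lab.ofZ W).ovr u hu)) : Pj (unp p) S where
  π := p.π
  law := p.law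
  hZ := fun k ω ω' _ _ => Iff.rfl
  hn := fun k => by
    show (T.F k).n / u = (S.F k).n
    rw [p.hn k]
    show u * (S.F k).n / u = _
    rw [mul_div_cancel_left₀ _ hu.ne']

/-- the event has the same probability -/
theorem unp_pr (p : Pj T ((Lab.ofZ W).ovr u hu)) (A : ∀ k, (T.F k).Ω → Prop) : (unp p).pr A = T.pr A := rfl

/-- THE SPACES: the zoom of the event of the extension is the event of the extension of the zoom -/
theorem im_unp (p : Pj T ((Lab.ofZ W).ovr u hu)) (A : ∀ k, (T.F k).Ω → Prop) :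
    (Lab.ofZ (S := Sp.im (ppn p) A) W).ovr u hu = Sp.im p A := rfl

/-- THE SYSTEMS -/
theorem im_zim (p : Pj T ((Lab.ofZ W).ovr u hu)) (A : ∀ k, (T.F k).Ω → Prop) (hA : 0 < ul (T.pr A))
    (t : MSys ((Lab.ofZ W).ovr u hu) M E ι) : zim (ppn p) A (T := unp p) hA t = t.im p A hA := rfl

/-- THE POINTS -/
theorem xI_unp (p : Pj T ((Lab.ofZ W).ovr u hu)) (A : ∀ k, (T.F k).Ω → Prop) (X : ((Lab.ofZ W).ovr u hu).VV M) :
    xI (ppn p) A X = X.im p A := rfl

end

end

end Pool.Agent.Helper56.IMZ
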