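import Pool.Agent.Helper15.FST.St
import Pool.Agent.Helper56.IMZ.Unz

/-! [IMZ] of FST/St: EVENTS OF EXTENSIONS OF A ZOOM ARE ZOOMS OF EVENTS OF EXTENSIONS OF THE SYSTEM. -/

set_option autoImplicit false

namespace Pool.Agent.Helper56.IMZ

open Finset Filter Topology Matrix Pool.Agent.Helper69.RK Pool.Agent.Helper31.EC Pool.Agent.Helper31.EC.Sp
open Pool.Agent.Helper40.EL Pool.Agent.Helper84.MT Pool.Agent.Helper89.LX
open Pool.Agent.Helper81.CPY Pool.Agent.Helper7.GZ Pool.Agent.Helper7.RD Pool.Agent.Helper70.CPW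
open Pool.Agent.Helper29.MX
open Pool.Agent.Helper93.FST (TamP)
open Pool.Agent.Helper15.FST

noncomputable section

variable {S T : Sp} {M M' : ℕ} {E E' : ℕ → ℕ} {ι : Type}

/-- a literal type-label on an event of an extension -/
theorem tlb_im {s : MSys S M E ι} {c : ℝ} {W : Rsl S} (h : TLb s c (Lab.ofZ W)) (p : Pj T S)
    (A : ∀ k, (T.F k).Ω → Prop) (hA : 0 < ul (T.pr A)) :
    TLb (s.im p A hA) c (Lab.ofZ (S := Sp.im p A) (W : Rsl (Sp.im p A))) := by
  have h2 : ∀ i, PLe (fun k => fc (W k)) ((s.lf i).win c) :=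
    (Lab.ofZ_DMf (A := fun i => (s.lf i).win c) W).mp h
  intro i
  have h3 := Pool.Agent.Helper81.CPY.ple_im p A hA (h2 i)
  have e1 : ((s.im p A hA).lf i).win c = ((s.lf i).win c).im p A := rfl
  rw [e1]
  have e2 : (fun k => (Lab.ofZ (S := Sp.im p A) (W : Rsl (Sp.im p A)) k).leak (((s.lf i).win c).im p A k)) =
      fun k => Pool.Agent.Helper31.EC.h (fc (F := (Sp.im p A).F k) (W k)) (((s.lf i).win c).im p A k) :=
    funext fun k => Lab.ofZ_leak (S := Sp.im p A) W (((s.lf i).win c).im p A) k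
  rw [e2]
  exact h3

/-- tame rows on an event of an extension -/
theorem tam_im {W : Rsl S} {Q : S.VV M} {c u a : ℝ} {h0 : 0 ≤ c} {hu : 0 < u} {h1 : c + u ≤ 1}
    {z : PZ (zuz W c u h0 hu h1) Q M'} (h : TamP z a) (p : Pj T S) (A : ∀ k, (T.F k).Ω → Prop)
    (hA : 0 < ul (T.pr A)) : TamP (pzI p A hA z) a := by
  intro L hL
  obtain ⟨K, hK, h2⟩ := h L hL
  exact ⟨K, hK, Pool.Agent.Helper81.CPY.typ_im p A hA h2⟩

/-- THE ZOOM on an event of an extension of the system -/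
def zstI {N g r κ : ℕ} {s : MSys S N (lin g) (Fin r)} {c a w U : ℝ} (Z : Zst s κ c a w U) (p : Pj T S)
    (A : ∀ k, (T.F k).Ω → Prop) (hA : 0 < ul (T.pr A)) : Zst (s.im p A hA) κ c a w U where
  W := Z.W
  h0 := Z.h0
  hu := Z.hu
  h1 := Z.h1
  z := pzI p A hA Z.z
  t := zim p A hA Z.t
  tQ := congrArg (fun X => xI p A X) Z.tQ
  win := fun b i hb0 hb1 => winI p A hA (Z.win b i hb0 hb1)
  tlb := tlb_im Z.tlb p A hA
  ca := Z.ca
  aw := Z.aw
  tam := tam_im Z.tam p A hA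
  dom := by
    obtain ⟨K, hK, h⟩ := Z.dom
    exact ⟨K, hK, Pool.Agent.Helper81.CPY.typ_im p A hA h⟩
  det := by
    obtain ⟨K, hK, h⟩ := Z.det
    exact ⟨K, hK, Pool.Agent.Helper81.CPY.typ_im p A hA h⟩

/-- **[IMZ]** -/
theorem row_imz : ROW_IMZ := by
  intro S N g r κ s c a w U Z T p A hA
  exact ⟨unp p, ppn p, A, hA, zstI Z (ppn p) A hA, rfl, fun _ => rfl⟩

end

end Pool.Agent.Helper56.IMZ
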